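import Pool.Agent.Work.MP_d956f3_nt.R.Sup

/-! # MP_d956f3_nt

For every subfield `K` of `ℚ(√n : n ∈ ℕ)` the number of classes of totally positive units modulo
squares of units is the largest number of such classes of a subfield of `K` of finite degree (and
it is infinite if there is no largest number); it is `1` if and only if every subfield of `K` of
finite degree has a unit of norm `-1`. -/

namespace Pool.Agent.Results.MP_d956f3_nt.ClassCount

open NumberField

section

variable (F : Type) [Field F]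

/-- The group of units `u` of the ring of integers of `F` such that `φ u > 0` for every
embedding `φ` of `F` into the reals. -/
def TotPosUnits : Subgroup (𝓞 F)ˣ where
  carrier := {u | ∀ φ : F →+* ℝ, 0 < φ ((u : 𝓞 F) : F)}
  one_mem' := by
    intro φ
    simp
  mul_mem' := by
    intro a b ha hb φ
    have h1 : φ (((a * b : (𝓞 F)ˣ) : 𝓞 F) : F) = φ ((a : 𝓞 F) : F) * φ ((b : 𝓞 F) : F) := by
      rw [← map_mul]
      rfl
    rw [h1]
    exact mul_pos (ha φ) (hb φ)
  inv_mem' := by
    intro a ha φ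
    have h1 : φ ((a : 𝓞 F) : F) * φ (((a⁻¹ : (𝓞 F)ˣ) : 𝓞 F) : F) = 1 := by
      rw [← map_mul, ← map_mul, Units.mul_inv, map_one, map_one]
    exact (pos_iff_pos_of_mul_pos (by rw [h1]; exact one_pos)).1 (ha φ)

/-- The group of the squares of the units of the ring of integers of `F`. -/
def SqUnits : Subgroup (𝓞 F)ˣ := (powMonoidHom 2 : (𝓞 F)ˣ →* (𝓞 F)ˣ).range

/-- The quotient of the group of totally positive units by the group of squares of units. -/
def Classes : Type := TotPosUnits F ⧸ (SqUnits F).subgroupOf (TotPosUnits F)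

end

/-- The compositum of all the real quadratic fields. -/
noncomputable def Q2 : IntermediateField ℚ ℝ :=
  IntermediateField.adjoin ℚ (Set.range fun n : ℕ => √(n : ℝ))

/-- The field `F` has a unit of norm `-1` over `ℚ`. -/
def HasNegUnit (F : IntermediateField ℚ ℝ) : Prop :=
  ∃ u : (𝓞 F)ˣ, Algebra.norm ℚ ((u : 𝓞 F) : F) = -1

theorem sq_le {F : IntermediateField ℚ ℝ} : SqUnits F ≤ TotPosUnits F := by
  rintro _ ⟨v, rfl⟩ φ
  have h1 : φ ((((powMonoidHom 2 : (𝓞 F)ˣ →* (𝓞 F)ˣ) v : (𝓞 F)ˣ) : 𝓞 F) : F) =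
      φ ((v : 𝓞 F) : F) ^ 2 := by
    rw [← map_pow]
    rfl
  rw [h1]
  apply sq_pos_of_ne_zero
  rw [ne_eq, map_eq_zero]
  exact fun h => v.ne_zero (RingOfIntegers.ext h)

theorem result (K : IntermediateField ℚ ℝ) (hK : K ≤ Q2) :
    (Finite (Classes K) ↔ ∃ B : ℕ, ∀ F : IntermediateField ℚ ℝ, F ≤ K →
      FiniteDimensional ℚ F → Nat.card (Classes F) ≤ B) ∧
    (Finite (Classes K) →
      IsGreatest {m : ℕ | ∃ F : IntermediateField ℚ ℝ, F ≤ K ∧ FiniteDimensional ℚ F ∧
        Nat.card (Classes F) = m} (Nat.card (Classes K))) ∧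
    (TotPosUnits K = SqUnits K ↔ ∀ F : IntermediateField ℚ ℝ, F ≤ K →
      FiniteDimensional ℚ F → HasNegUnit F) := by
  refine ⟨⟨?_, ?_⟩, ?_, ?_, ?_⟩
  · intro hfin
    exact ⟨Nat.card (Classes K), fun F hF hfd => Pool.Agent.TPU.le_card hK hfin hF⟩
  · rintro ⟨B, hB⟩
    exact Pool.Agent.TPU.finite_of_bound hK B hB
  · intro hfin
    exact Pool.Agent.TPU.greatest hK hfin
  · intro h
    exact (Pool.Agent.TPU.triv_iff_all hK).1 h.le
  · intro h
    exact le_antisymm ((Pool.Agent.TPU.triv_iff_all hK).2 h) sq_le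

end Pool.Agent.Results.MP_d956f3_nt.ClassCount
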