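import Pool.Agent.Work.MP_d956f3_nt.Gen

/-! # MP_d956f3_nt

If a subfield `K` of `ℚ(√n : n ∈ ℕ)` of infinite degree has only finitely many classes of totally
positive units modulo squares of units, then the negative Pell equation is solvable for all but
finitely many squarefree `D` with `√D ∈ K`, and no prime `p = 3 mod 4` divides any such `D`. -/

namespace Pool.Agent.Results.MP_d956f3_nt.NegativePell

open NumberField

section

variable (F : Type) [Field F]

/-- The group of units `u` of the ring of integers of `F` such that `φ u > 0` for every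
embedding `φ` of `F` into the reals. -/
def TotPosUnits : Subgroup (𝓞 F)ˣ where
  carrier := {u | ∀ φ : F →+* ℝ, 0 < φ ((u : 𝓞 F) : F)}
  one_mem' := by
    intro φ
    simp
  mul_mem' := by
    intro a b ha hb φ
    have h1 : φ (((a * b : (𝓞 F)ˣ) : 𝓞 F) : F) = φ ((a : 𝓞 F) : F) * φ ((b : 𝓞 F) : F) := by
      rw [← map_mul]
      rfl
    rw [h1]
    exact mul_pos (ha φ) (hb φ)
  inv_mem' := by
    intro a ha φ
    have h1 : φ ((a : 𝓞 F) : F) * φ (((a⁻¹ : (𝓞 F)ˣ) : 𝓞 F) : F) = 1 := by
      rw [← map_mul, ← map_mul, Units.mul_inv, map_one, map_one]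
    exact (pos_iff_pos_of_mul_pos (by rw [h1]; exact one_pos)).1 (ha φ)

/-- The group of the squares of the units of the ring of integers of `F`. -/
def SqUnits : Subgroup (𝓞 F)ˣ := (powMonoidHom 2 : (𝓞 F)ˣ →* (𝓞 F)ˣ).range

/-- The quotient of the group of totally positive units by the group of squares of units. -/
def Classes : Type := TotPosUnits F ⧸ (SqUnits F).subgroupOf (TotPosUnits F)

end

/-- The compositum of all the real quadratic fields. -/
noncomputable def Q2 : IntermediateField ℚ ℝ :=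
  IntermediateField.adjoin ℚ (Set.range fun n : ℕ => √(n : ℝ))

/-- The field generated by `√2` and the `√p`, `p` a prime with `p = 1 mod 4`. -/
noncomputable def P1 : IntermediateField ℚ ℝ :=
  IntermediateField.adjoin ℚ {x : ℝ | ∃ p : ℕ, p.Prime ∧ (p = 2 ∨ p % 4 = 1) ∧ x = √(p : ℝ)}

theorem result (K : IntermediateField ℚ ℝ) (hK : K ≤ Q2) (hinf : ¬ FiniteDimensional ℚ K)
    (hfin : Finite (Classes K)) :
    {D : ℕ | Squarefree D ∧ √(D : ℝ) ∈ K ∧ ¬ ∃ x y : ℤ, x ^ 2 - D * y ^ 2 = -1}.Finite ∧
      K ≤ P1 :=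
  ⟨Pool.Agent.TPU.step2 hK hfin, Pool.Agent.TPU.le_P1 hK hfin hinf⟩

end Pool.Agent.Results.MP_d956f3_nt.NegativePell
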