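import Pool.Agent.Work.MP_d956f3_nt.R.Sup

/-! # MP_d956f3_nt

If a subfield `K` of `ℚ(√n : n ∈ ℕ)` of infinite degree has only finitely many classes of totally
positive units modulo squares of units, then every subfield of `K` of finite degree that stays away
from a finite set of primes has a unit of norm `-1`, and `K` has a subfield `L` of infinite degree
in which every totally positive unit is the square of a unit and all of whose subfields of finite
degree have a unit of norm `-1`. -/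

namespace Pool.Agent.Results.MP_d956f3_nt.Rigidity

open NumberField

section

variable (F : Type) [Field F]

/-- The group of units `u` of the ring of integers of `F` such that `φ u > 0` for every
embedding `φ` of `F` into the reals. -/
def TotPosUnits : Subgroup (𝓞 F)ˣ where
  carrier := {u | ∀ φ : F →+* ℝ, 0 < φ ((u : 𝓞 F) : F)}
  one_mem' := by
    intro φ
    simp
  mul_mem' := by
    intro a b ha hb φ
    have h1 : φ (((a * b : (𝓞 F)ˣ) : 𝓞 F) : F) = φ ((a : 𝓞 F) : F) * φ ((b : 𝓞 F) : F) := by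
      rw [← map_mul]
      rfl
    rw [h1]
    exact mul_pos (ha φ) (hb φ)
  inv_mem' := by
    intro a ha φ
    have h1 : φ ((a : 𝓞 F) : F) * φ (((a⁻¹ : (𝓞 F)ˣ) : 𝓞 F) : F) = 1 := by
      rw [← map_mul, ← map_mul, Units.mul_inv, map_one, map_one]
    exact (pos_iff_pos_of_mul_pos (by rw [h1]; exact one_pos)).1 (ha φ)

/-- The group of the squares of the units of the ring of integers of `F`. -/
def SqUnits : Subgroup (𝓞 F)ˣ := (powMonoidHom 2 : (𝓞 F)ˣ →* (𝓞 F)ˣ).range

/-- The quotient of the group of totally positive units by the group of squares of units. -/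
def Classes : Type := TotPosUnits F ⧸ (SqUnits F).subgroupOf (TotPosUnits F)

end

/-- The compositum of all the real quadratic fields. -/
noncomputable def Q2 : IntermediateField ℚ ℝ :=
  IntermediateField.adjoin ℚ (Set.range fun n : ℕ => √(n : ℝ))

/-- The field `F` has a unit of norm `-1` over `ℚ`. -/
def HasNegUnit (F : IntermediateField ℚ ℝ) : Prop :=
  ∃ u : (𝓞 F)ˣ, Algebra.norm ℚ ((u : 𝓞 F) : F) = -1

/-- No prime of `S` divides a squarefree `D` with `√D ∈ F`. -/
def Away (S : Finset ℕ) (F : IntermediateField ℚ ℝ) : Prop :=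
  ∀ D : ℕ, Squarefree D → √(D : ℝ) ∈ F → ∀ p ∈ S, p.Prime → ¬ p ∣ D

theorem sq_le {F : IntermediateField ℚ ℝ} : SqUnits F ≤ TotPosUnits F := by
  rintro _ ⟨v, rfl⟩ φ
  have h1 : φ ((((powMonoidHom 2 : (𝓞 F)ˣ →* (𝓞 F)ˣ) v : (𝓞 F)ˣ) : 𝓞 F) : F) =
      φ ((v : 𝓞 F) : F) ^ 2 := by
    rw [← map_pow]
    rfl
  rw [h1]
  apply sq_pos_of_ne_zero
  rw [ne_eq, map_eq_zero]
  exact fun h => v.ne_zero (RingOfIntegers.ext h)

theorem result (K : IntermediateField ℚ ℝ) (hK : K ≤ Q2) (hinf : ¬ FiniteDimensional ℚ K)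
    (hfin : Finite (Classes K)) :
    (∃ S : Finset ℕ, ∀ F : IntermediateField ℚ ℝ, F ≤ K → FiniteDimensional ℚ F →
      Away S F → HasNegUnit F) ∧
    ∃ L : IntermediateField ℚ ℝ, L ≤ K ∧ ¬ FiniteDimensional ℚ L ∧
      TotPosUnits L = SqUnits L ∧
      ∀ F : IntermediateField ℚ ℝ, F ≤ L → FiniteDimensional ℚ F → HasNegUnit F := by
  refine ⟨Pool.Agent.TPU.rigid' hK hfin hinf, ?_⟩
  obtain ⟨L, h1, h2, h3⟩ := Pool.Agent.TPU.exists_L hK hfin hinf
  exact ⟨L, h1, h2, le_antisymm h3 sq_le, (Pool.Agent.TPU.triv_iff_all (h1.trans hK)).1 h3⟩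

end Pool.Agent.Results.MP_d956f3_nt.Rigidity
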